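import Pool.Agent.H22.FOT.Defs

open MeasureTheory unitInterval Set Filter Topology

namespace Pool.FOT

open Pool.Agent.H99.LowerTail

namespace H40BAD

lemma measurable_rowAv (W : Graphon) : Measurable (rowAv W) := by
  have h : StronglyMeasurable (Function.uncurry fun x y : I => W x y) :=
    (show Measurable (fun z : I × I => W z.1 z.2) from W.measurable').stronglyMeasurable
  exact (h.integral_prod_right (ν := (volume : Measure I))).measurable

lemma measurable_row (W : Graphon) (x : I) : Measurable (fun y : I => W x y) :=
  (show Measurable (fun z : I × I => W z.1 z.2) from W.measurable').comp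
    (measurable_const.prodMk measurable_id)

lemma abs_sub_le_one {a b : ℝ} (ha : a ∈ Icc (0 : ℝ) 1) (hb : b ∈ Icc (0 : ℝ) 1) :
    |a - b| ≤ 1 := by
  rw [abs_le]
  constructor <;> linarith [ha.1, ha.2, hb.1, hb.2]

lemma sq_integral_le {f : I → ℝ} (hf : Measurable f) (hb : ∀ x, |f x| ≤ 1) :
    (∫ x, f x) ^ 2 ≤ ∫ x, f x ^ 2 := by
  set c : ℝ := ∫ x, f x with hc
  have i1 : Integrable f := Integrable.of_bound hf.aestronglyMeasurable 1
    (Eventually.of_forall fun x => by rw [Real.norm_eq_abs]; exact hb x)
  have i2 : Integrable (fun x => f x ^ 2) := by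
    refine Integrable.of_bound (hf.pow_const 2).aestronglyMeasurable 1
      (Eventually.of_forall fun x => ?_)
    rw [Real.norm_eq_abs, abs_pow]
    exact pow_le_one₀ (abs_nonneg _) (hb x)
  have h0 : 0 ≤ ∫ x, (f x - c) ^ 2 := integral_nonneg fun x => sq_nonneg _
  have e : (fun x => (f x - c) ^ 2) = fun x => (f x ^ 2 - 2 * c * f x) + c ^ 2 := by
    funext x; ring
  have i4 : Integrable (fun x => 2 * c * f x) := i1.const_mul _
  have i3 : Integrable (fun x => f x ^ 2 - 2 * c * f x) := i2.sub i4
  have h1 : ∫ x, (f x ^ 2 - 2 * c * f x) = (∫ x, f x ^ 2) - 2 * c * c := by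
    rw [integral_sub i2 i4, integral_const_mul]
  rw [e, integral_add i3 (integrable_const _), h1] at h0
  simp only [integral_const, probReal_univ, smul_eq_mul, one_mul] at h0
  linarith

end H40BAD

open H40BAD

theorem t_bad : BADStmt := by
  intro W q hq η hη
  set B : Set I := {x : I | η < |rowAv W x - q|} with hBdef
  have hB : MeasurableSet B :=
    measurableSet_lt measurable_const ((measurable_rowAv W).sub_const q).abs
  have hW1 : ∀ x y, W x y ∈ Icc (0 : ℝ) 1 := fun x y => ⟨W.nonneg' _ _, W.le_one' _ _⟩
  have mWq : Measurable (fun z : I × I => (W z.1 z.2 - q) ^ 2) :=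
    ((show Measurable (fun z : I × I => W z.1 z.2) from W.measurable').sub_const q).pow_const 2
  have iWq : Integrable (fun z : I × I => (W z.1 z.2 - q) ^ 2) := by
    refine Integrable.of_bound mWq.aestronglyMeasurable 1 (Eventually.of_forall fun z => ?_)
    rw [Real.norm_eq_abs, abs_pow]
    exact pow_le_one₀ (abs_nonneg _) (abs_sub_le_one (hW1 _ _) hq)
  refine ⟨hB, ?_, ?_, ?_, ?_⟩
  · -- Chebyshev
    have h1 : ∀ x, (rowAv W x - q) ^ 2 ≤ ∫ y : I, (W x y - q) ^ 2 := by
      intro x
      have e : rowAv W x - q = ∫ y : I, (W x y - q) := by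
        have i : Integrable (fun y : I => W x y) :=
          Integrable.of_bound (measurable_row W x).aestronglyMeasurable 1
            (Eventually.of_forall fun y => by
              rw [Real.norm_eq_abs, abs_of_nonneg (W.nonneg' _ _)]; exact W.le_one' _ _)
        rw [integral_sub i (integrable_const _)]
        simp [rowAv]
      rw [e]
      exact sq_integral_le ((measurable_row W x).sub_const q)
        (fun y => abs_sub_le_one (hW1 _ _) hq)
    have hF : nsq W q = ∫ x : I, ∫ y : I, (W x y - q) ^ 2 := integral_prod _ iWq
    have i1 : Integrable (fun x : I => (rowAv W x - q) ^ 2) := by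
      refine Integrable.of_bound (((measurable_rowAv W).sub_const q).pow_const
        2).aestronglyMeasurable 1 (Eventually.of_forall fun x => ?_)
      rw [Real.norm_eq_abs, abs_pow]
      refine pow_le_one₀ (abs_nonneg _) ?_
      have h2 : rowAv W x ∈ Icc (0 : ℝ) 1 := by
        constructor
        · exact integral_nonneg fun y => W.nonneg' _ _
        · have i : Integrable (fun y : I => W x y) :=
            Integrable.of_bound (measurable_row W x).aestronglyMeasurable 1
              (Eventually.of_forall fun y => by
                rw [Real.norm_eq_abs, abs_of_nonneg (W.nonneg' _ _)]; exact W.le_one' _ _)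
          have := integral_mono i (integrable_const (1 : ℝ)) (fun y => W.le_one' x y)
          show (∫ y : I, W x y) ≤ 1
          refine this.trans (le_of_eq ?_)
          simp
      exact abs_sub_le_one h2 hq
    have i2 : Integrable (fun x : I => ∫ y : I, (W x y - q) ^ 2) := iWq.integral_prod_left
    have h3 : ∫ x : I, (rowAv W x - q) ^ 2 ≤ nsq W q := by
      rw [hF]
      exact integral_mono i1 i2 h1
    have h4 : volume.real B * η ^ 2 = ∫ x : I, B.indicator (fun _ => η ^ 2) x := by
      rw [integral_indicator_const _ hB, smul_eq_mul]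
    rw [h4]
    refine le_trans (integral_mono ((integrable_const _).indicator hB) i1 fun x => ?_) h3
    by_cases hx : x ∈ B
    · rw [indicator_of_mem hx]
      have hx' : η < |rowAv W x - q| := hx
      have : η ^ 2 ≤ |rowAv W x - q| ^ 2 := pow_le_pow_left₀ hη.le hx'.le 2
      rwa [sq_abs] at this
    · rw [indicator_of_notMem hx]
      exact sq_nonneg _
  · -- smaller norm
    have mR : Measurable (fun z : I × I => (repl W q hq B hB z.1 z.2 - q) ^ 2) :=
      ((show Measurable (fun z : I × I => repl W q hq B hB z.1 z.2) from
        (repl W q hq B hB).measurable').sub_const q).pow_const 2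
    have hle : ∀ z : I × I, (repl W q hq B hB z.1 z.2 - q) ^ 2 ≤ (W z.1 z.2 - q) ^ 2 := by
      intro z
      have e : repl W q hq B hB z.1 z.2 = if z.1 ∈ B ∨ z.2 ∈ B then q else W z.1 z.2 := rfl
      rw [e]
      split_ifs
      · rw [sub_self, zero_pow two_ne_zero]
        exact sq_nonneg _
      · exact le_rfl
    have iR : Integrable (fun z : I × I => (repl W q hq B hB z.1 z.2 - q) ^ 2) := by
      refine iWq.mono' mR.aestronglyMeasurable (Eventually.of_forall fun z => ?_)
      rw [Real.norm_eq_abs, abs_of_nonneg (sq_nonneg _)]
      exact hle z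
    exact integral_mono iR iWq hle
  · -- rows
    intro x
    have hvb : 0 ≤ volume.real B := measureReal_nonneg
    by_cases hx : x ∈ B
    · have e : ∀ y, repl W q hq B hB x y - q = 0 := by
        intro y
        have : repl W q hq B hB x y = if x ∈ B ∨ y ∈ B then q else W x y := rfl
        rw [this, if_pos (Or.inl hx), sub_self]
      simp only [e, integral_zero, abs_zero]
      positivity
    · have e : ∀ y, repl W q hq B hB x y - q =
          (W x y - q) - B.indicator (fun y => W x y - q) y := by
        intro y
        have h1 : repl W q hq B hB x y = if x ∈ B ∨ y ∈ B then q else W x y := rfl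
        rw [h1]
        by_cases hy : y ∈ B
        · rw [if_pos (Or.inr hy), indicator_of_mem hy]
          ring
        · rw [if_neg (by tauto), indicator_of_notMem hy, sub_zero]
      simp only [e]
      have i0 : Integrable (fun y : I => W x y) :=
        Integrable.of_bound (measurable_row W x).aestronglyMeasurable 1
          (Eventually.of_forall fun y => by
            rw [Real.norm_eq_abs, abs_of_nonneg (W.nonneg' _ _)]; exact W.le_one' _ _)
      have i : Integrable (fun y : I => W x y - q) := i0.sub (integrable_const _)
      rw [integral_sub i (i.indicator hB)]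
      refine (abs_sub _ _).trans (add_le_add ?_ ?_)
      · have e2 : ∫ y : I, (W x y - q) = rowAv W x - q := by
          rw [integral_sub i0 (integrable_const _)]
          simp [rowAv]
        rw [e2]
        exact not_lt.1 hx
      · have h4 : volume.real B = ∫ x : I, B.indicator (fun _ => (1 : ℝ)) x := by
          rw [integral_indicator_const _ hB, smul_eq_mul, mul_one]
        rw [h4]
        refine abs_integral_le_integral_abs.trans (integral_mono (i.indicator hB).abs
          ((integrable_const _).indicator hB) fun y => ?_)
        show |B.indicator (fun y => W x y - q) y| ≤ B.indicator (fun _ => (1 : ℝ)) y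
        by_cases hy : y ∈ B
        · rw [indicator_of_mem hy, indicator_of_mem hy]
          exact abs_sub_le_one (hW1 _ _) hq
        · rw [indicator_of_notMem hy, indicator_of_notMem hy, abs_zero]
  · -- the case of equality
    intro hB0 hR0
    have hB0' : volume B = 0 := by
      rwa [measureReal_eq_zero_iff] at hB0
    have mR : Measurable (fun z : I × I => (repl W q hq B hB z.1 z.2 - q) ^ 2) :=
      ((show Measurable (fun z : I × I => repl W q hq B hB z.1 z.2) from
        (repl W q hq B hB).measurable').sub_const q).pow_const 2
    have iR : Integrable (fun z : I × I => (repl W q hq B hB z.1 z.2 - q) ^ 2) := by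
      refine Integrable.of_bound mR.aestronglyMeasurable 1 (Eventually.of_forall fun z => ?_)
      rw [Real.norm_eq_abs, abs_pow]
      exact pow_le_one₀ (abs_nonneg _) (abs_sub_le_one
        ⟨(repl W q hq B hB).nonneg' _ _, (repl W q hq B hB).le_one' _ _⟩ hq)
    have h1 := (integral_eq_zero_iff_of_nonneg (fun z => sq_nonneg _) iR).1 hR0
    have hae : ∀ᵐ x : I, x ∉ B := by
      rw [ae_iff]
      simpa using hB0'
    have h2 : ∀ᵐ z : I × I, z.1 ∉ B :=
      (Measure.quasiMeasurePreserving_fst (μ := (volume : Measure I))
        (ν := (volume : Measure I))).ae hae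
    have h3 : ∀ᵐ z : I × I, z.2 ∉ B :=
      (Measure.quasiMeasurePreserving_snd (μ := (volume : Measure I))
        (ν := (volume : Measure I))).ae hae
    filter_upwards [h1, h2, h3] with z hz1 hz2 hz3
    have e : repl W q hq B hB z.1 z.2 = if z.1 ∈ B ∨ z.2 ∈ B then q else W z.1 z.2 := rfl
    rw [if_neg (by tauto)] at e
    have h5 : (repl W q hq B hB z.1 z.2 - q) ^ 2 = 0 := hz1
    rw [e] at h5
    have h6 := pow_eq_zero_iff (two_ne_zero) |>.1 h5
    linarith

end Pool.FOT
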