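import Pool.Agent.H22.FOT.Defs

open MeasureTheory unitInterval Set Filter Topology

namespace Pool.FOT

open Pool.Agent.H99.LowerTail

namespace H40CPT

section
variable {Ω : Type} [MeasurableSpace Ω] (μ : Measure Ω) [IsProbabilityMeasure μ]

lemma integrable_test {f : Ω → Ω → ℝ} (hf : Measurable (fun z : Ω × Ω => f z.1 z.2)) {C : ℝ}
    (hC : ∀ x y, |f x y| ≤ C) {a b : Ω → ℝ} (ha : Measurable a) (hb : Measurable b)
    (ha1 : ∀ x, a x ∈ Icc (0 : ℝ) 1) (hb1 : ∀ x, b x ∈ Icc (0 : ℝ) 1) :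
    Integrable (fun z : Ω × Ω => f z.1 z.2 * a z.1 * b z.2) (μ.prod μ) := by
  refine Integrable.of_bound
    ((hf.mul (ha.comp measurable_fst)).mul (hb.comp measurable_snd)).aestronglyMeasurable C
    (Eventually.of_forall fun z => ?_)
  rw [Real.norm_eq_abs, abs_mul, abs_mul, abs_of_nonneg (ha1 z.1).1, abs_of_nonneg (hb1 z.2).1]
  have h0 : 0 ≤ |f z.1 z.2| := abs_nonneg _
  have h1 : |f z.1 z.2| * a z.1 ≤ |f z.1 z.2| := mul_le_of_le_one_right h0 (ha1 z.1).2
  have h2 : |f z.1 z.2| * a z.1 * b z.2 ≤ |f z.1 z.2| * a z.1 :=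
    mul_le_of_le_one_right (mul_nonneg h0 (ha1 z.1).1) (hb1 z.2).2
  exact h2.trans (h1.trans (hC _ _))

lemma cutLe_sub {f g : Ω → Ω → ℝ} (hf : Measurable (fun z : Ω × Ω => f z.1 z.2))
    (hg : Measurable (fun z : Ω × Ω => g z.1 z.2)) {C C' : ℝ} (hC : ∀ x y, |f x y| ≤ C)
    (hC' : ∀ x y, |g x y| ≤ C') {δ δ' : ℝ} (h1 : CutLe μ f δ) (h2 : CutLe μ g δ') :
    CutLe μ (fun x y => f x y - g x y) (δ + δ') := by
  intro a b ha hb ha1 hb1
  have i1 := integrable_test μ hf hC ha hb ha1 hb1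
  have i2 := integrable_test μ hg hC' ha hb ha1 hb1
  have e : (fun z : Ω × Ω => (f z.1 z.2 - g z.1 z.2) * a z.1 * b z.2) =
      fun z => f z.1 z.2 * a z.1 * b z.2 - g z.1 z.2 * a z.1 * b z.2 := by
    funext z; ring
  show |∫ z : Ω × Ω, (f z.1 z.2 - g z.1 z.2) * a z.1 * b z.2 ∂(μ.prod μ)| ≤ δ + δ'
  rw [e, integral_sub i1 i2]
  have t1 := h1 a b ha hb ha1 hb1
  have t2 := h2 a b ha hb ha1 hb1
  exact (abs_sub _ _).trans (add_le_add t1 t2)

lemma cutLe_add {f g : Ω → Ω → ℝ} (hf : Measurable (fun z : Ω × Ω => f z.1 z.2))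
    (hg : Measurable (fun z : Ω × Ω => g z.1 z.2)) {C C' : ℝ} (hC : ∀ x y, |f x y| ≤ C)
    (hC' : ∀ x y, |g x y| ≤ C') {δ δ' : ℝ} (h1 : CutLe μ f δ) (h2 : CutLe μ g δ') :
    CutLe μ (fun x y => f x y + g x y) (δ + δ') := by
  intro a b ha hb ha1 hb1
  have i1 := integrable_test μ hf hC ha hb ha1 hb1
  have i2 := integrable_test μ hg hC' ha hb ha1 hb1
  have e : (fun z : Ω × Ω => (f z.1 z.2 + g z.1 z.2) * a z.1 * b z.2) =
      fun z => f z.1 z.2 * a z.1 * b z.2 + g z.1 z.2 * a z.1 * b z.2 := by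
    funext z; ring
  show |∫ z : Ω × Ω, (f z.1 z.2 + g z.1 z.2) * a z.1 * b z.2 ∂(μ.prod μ)| ≤ δ + δ'
  rw [e, integral_add i1 i2]
  have t1 := h1 a b ha hb ha1 hb1
  have t2 := h2 a b ha hb ha1 hb1
  exact (abs_add_le _ _).trans (add_le_add t1 t2)

lemma cutLe_of_integral {f : Ω → Ω → ℝ} (hf : Measurable (fun z : Ω × Ω => f z.1 z.2)) {C : ℝ}
    (hC : ∀ x y, |f x y| ≤ C) {δ : ℝ} (h : ∫ z : Ω × Ω, |f z.1 z.2| ∂(μ.prod μ) ≤ δ) :
    CutLe μ f δ := by
  intro a b ha hb ha1 hb1
  have i1 := integrable_test μ hf hC ha hb ha1 hb1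
  have i2 : Integrable (fun z : Ω × Ω => |f z.1 z.2|) (μ.prod μ) := by
    refine Integrable.of_bound hf.abs.aestronglyMeasurable C (Eventually.of_forall fun z => ?_)
    rw [Real.norm_eq_abs, abs_abs]
    exact hC _ _
  refine (abs_integral_le_integral_abs).trans (le_trans (integral_mono i1.abs i2 fun z => ?_) h)
  show |f z.1 z.2 * a z.1 * b z.2| ≤ |f z.1 z.2|
  rw [abs_mul, abs_mul, abs_of_nonneg (ha1 z.1).1, abs_of_nonneg (hb1 z.2).1]
  have h0 : 0 ≤ |f z.1 z.2| := abs_nonneg _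
  have h1 : |f z.1 z.2| * a z.1 ≤ |f z.1 z.2| := mul_le_of_le_one_right h0 (ha1 z.1).2
  exact (mul_le_of_le_one_right (mul_nonneg h0 (ha1 z.1).1) (hb1 z.2).2).trans h1

/-- Symmetrisation of an approximation of a symmetric kernel. -/
lemma symm_approx (U g : Ω → Ω → ℝ) (hU : Measurable (fun z : Ω × Ω => U z.1 z.2))
    (hg : Measurable (fun z : Ω × Ω => g z.1 z.2)) (hs : ∀ x y, U x y = U y x) {C : ℝ}
    (hC : ∀ x y, |U x y - g x y| ≤ C) {ε : ℝ}
    (h : ∫ z : Ω × Ω, |U z.1 z.2 - g z.1 z.2| ∂(μ.prod μ) ≤ ε) :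
    ∫ z : Ω × Ω, |U z.1 z.2 - (g z.1 z.2 + g z.2 z.1) / 2| ∂(μ.prod μ) ≤ ε := by
  set d : Ω × Ω → ℝ := fun z => |U z.1 z.2 - g z.1 z.2| with hd
  have hdm : Measurable d := (hU.sub hg).abs
  have i1 : Integrable d (μ.prod μ) := by
    refine Integrable.of_bound hdm.aestronglyMeasurable C (Eventually.of_forall fun z => ?_)
    rw [Real.norm_eq_abs, hd]
    simp only [abs_abs]
    exact hC _ _
  have i2 : Integrable (fun z => d z.swap) (μ.prod μ) := i1.swap
  have e2 : ∫ z, d z.swap ∂(μ.prod μ) = ∫ z, d z ∂(μ.prod μ) := integral_prod_swap d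
  have hgm : Measurable (fun z : Ω × Ω => g z.2 z.1) := hg.comp measurable_swap
  have i3 : Integrable (fun z : Ω × Ω => |U z.1 z.2 - (g z.1 z.2 + g z.2 z.1) / 2|)
      (μ.prod μ) := by
    refine Integrable.of_bound
      (hU.sub ((hg.add hgm).div_const 2)).abs.aestronglyMeasurable C
      (Eventually.of_forall fun z => ?_)
    rw [Real.norm_eq_abs, abs_abs]
    have h1 := hC z.1 z.2
    have h2 := hC z.2 z.1
    rw [hs z.2 z.1] at h2
    rw [abs_le] at h1 h2 ⊢
    constructor <;> linarith [h1.1, h1.2, h2.1, h2.2]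
  have i4 : Integrable (fun z => (d z + d z.swap) / 2) (μ.prod μ) := (i1.add i2).div_const 2
  have e4 : ∫ z, (d z + d z.swap) / 2 ∂(μ.prod μ) = ∫ z, d z ∂(μ.prod μ) := by
    rw [integral_div, integral_add i1 i2, e2]
    ring
  refine le_trans (integral_mono i3 i4 fun z => ?_) (e4.le.trans h)
  show |U z.1 z.2 - (g z.1 z.2 + g z.2 z.1) / 2| ≤
    (|U z.1 z.2 - g z.1 z.2| + |U z.2 z.1 - g z.2 z.1|) / 2
  have e5 : U z.1 z.2 - (g z.1 z.2 + g z.2 z.1) / 2 =
      ((U z.1 z.2 - g z.1 z.2) + (U z.2 z.1 - g z.2 z.1)) / 2 := by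
    rw [hs z.2 z.1]; ring
  rw [e5, abs_div, abs_two]
  exact div_le_div_of_nonneg_right (abs_add_le _ _) (by norm_num)

end

lemma abs_sub_le_one {a b : ℝ} (ha : a ∈ Icc (0 : ℝ) 1) (hb : b ∈ Icc (0 : ℝ) 1) :
    |a - b| ≤ 1 := by
  rw [abs_le]
  constructor <;> linarith [ha.1, ha.2, hb.1, hb.2]

/-- A graphon as a kernel. -/
noncomputable def toGK (W : Graphon) : GK I where
  toFun := W.toFun
  measurable' := W.measurable'
  symm' := W.symm'
  nonneg' := W.nonneg'
  le_one' := W.le_one'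

/-- A continuous symmetric kernel. -/
noncomputable def ofC (φ : C(KK × KK, ℝ)) (h1 : ∀ z, φ z ∈ Icc (0 : ℝ) 1)
    (hs : ∀ x y, φ (x, y) = φ (y, x)) : GK KK where
  toFun x y := φ (x, y)
  measurable' := φ.continuous.measurable
  symm' := hs
  nonneg' x y := (h1 _).1
  le_one' x y := (h1 _).2

/-- Its pull back. -/
noncomputable def pullC (φ : C(KK × KK, ℝ)) (h1 : ∀ z, φ z ∈ Icc (0 : ℝ) 1)
    (hs : ∀ x y, φ (x, y) = φ (y, x)) (P : I → KK) (hP : Measurable P) : GK I where
  toFun x y := φ (P x, P y)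
  measurable' := by
    have h : Measurable (fun z : I × I => (P z.1, P z.2)) :=
      (hP.comp measurable_fst).prodMk (hP.comp measurable_snd)
    exact φ.continuous.measurable.comp h
  symm' x y := hs _ _
  nonneg' x y := (h1 _).1
  le_one' x y := (h1 _).2

lemma bound_C (φ : C(KK × KK, ℝ)) : ∃ C : ℝ, ∀ z, |φ z| ≤ C := by
  obtain ⟨C, hC⟩ := isCompact_univ.exists_bound_of_continuousOn (φ.continuous.continuousOn (s := univ))
  exact ⟨C, fun z => hC z (mem_univ _)⟩

end H40CPT

open H40CPT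

theorem t_cpt (hENC : ENCStmt) (hLIM : LIMStmt) (hCUL : CULStmt) (hCUP : CUPStmt)
    (hDEN : DENStmt) (hCNT : CNTStmt) (hDLM : DLMStmt) (hTRN : TRNStmt) : CPTStmt := by
  intro p hp0 hp1 W
  obtain ⟨Φ, G, hΦ, hG⟩ := hENC W
  obtain ⟨ν, U, hν, hw, hU, hcost⟩ := hLIM p hp0 hp1 W Φ hΦ
  haveI := hν
  have hUG : ∀ k : ℕ, 0 < k → CutLe ν (fun x y => U x y - G k (x, y)) (2 / k) := fun k hk =>
    hCUL W Φ hΦ ν U hν hw hU (G k) (2 / k) (hG k hk)
  obtain ⟨W0, hW0, hW0g⟩ := hTRN ν U hν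
  refine ⟨W0, ?_, ?_, ?_⟩
  · intro V _ H
    rw [hW0 V H]
    set E := edges H with hE
    have hdiag : ∀ e ∈ E, ¬ e.IsDiag := by
      intro e he
      classical
      rw [hE] at he
      unfold edges at he
      exact H.not_isDiag_of_mem_edgeFinset he
    have key : ∀ ε : ℝ, 0 < ε → ∀ k : ℕ, 0 < k → ∀ᶠ n in (hyperfilter ℕ : Filter ℕ),
        |homDensity H (W n) - sDens ν E U U.symm'| ≤ E.card * (4 / k + 3 * ε) + ε := by
      intro ε hε k hk
      obtain ⟨g, hg1, hg⟩ := hDEN (KK × KK) (ν.prod ν) (fun z => U z.1 z.2) U.measurable'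
        (fun z => ⟨U.nonneg' _ _, U.le_one' _ _⟩) ε hε
      set φ : C(KK × KK, ℝ) := ⟨fun z => (g z + g z.swap) / 2, by fun_prop⟩ with hφ
      have hφv : ∀ x y, φ (x, y) = (g (x, y) + g (y, x)) / 2 := fun x y => rfl
      have hs : ∀ x y, φ (x, y) = φ (y, x) := by
        intro x y; rw [hφv, hφv, add_comm]
      have hφ1 : ∀ z, φ z ∈ Icc (0 : ℝ) 1 := by
        intro z
        have e : φ z = (g z + g z.swap) / 2 := rfl
        rw [e]
        have a1 := hg1 z
        have a2 := hg1 z.swap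
        constructor <;> linarith [a1.1, a1.2, a2.1, a2.2]
      have hUφ : ∫ z : KK × KK, |U z.1 z.2 - φ (z.1, z.2)| ∂(ν.prod ν) ≤ ε := by
        have := symm_approx ν (fun x y => U x y) (fun x y => g (x, y)) U.measurable'
          g.continuous.measurable U.symm' (C := 1)
          (fun x y => abs_sub_le_one ⟨U.nonneg' _ _, U.le_one' _ _⟩ (hg1 _)) (ε := ε) hg
        exact this
      have mU : Measurable (fun z : KK × KK => U z.1 z.2) := U.measurable'
      have mφ : Measurable (fun z : KK × KK => φ (z.1, z.2)) := φ.continuous.measurable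
      have mG : Measurable (fun z : KK × KK => G k (z.1, z.2)) := (G k).continuous.measurable
      obtain ⟨CG, hCG⟩ := bound_C (G k)
      have bU : ∀ x y, |U x y| ≤ 1 := fun x y => by
        rw [abs_of_nonneg (U.nonneg' _ _)]; exact U.le_one' _ _
      have bφ : ∀ z, |φ z| ≤ 1 := fun z => by
        rw [abs_of_nonneg (hφ1 _).1]; exact (hφ1 _).2
      have bUφ : ∀ x y, |U x y - φ (x, y)| ≤ 1 := fun x y =>
        abs_sub_le_one ⟨U.nonneg' _ _, U.le_one' _ _⟩ (hφ1 _)
      have bUG : ∀ x y, |U x y - G k (x, y)| ≤ 1 + CG := fun x y =>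
        (abs_sub _ _).trans (add_le_add (bU _ _) (hCG _))
      have c1 : CutLe ν (fun x y => U x y - φ (x, y)) ε :=
        cutLe_of_integral ν (mU.sub mφ) bUφ hUφ
      have c2 : CutLe ν (fun x y => G k (x, y) - φ (x, y)) (ε + 2 / k) := by
        have := cutLe_sub ν (f := fun x y => U x y - φ (x, y))
          (g := fun x y => U x y - G k (x, y)) (mU.sub mφ) (mU.sub mG) bUφ bUG c1 (hUG k hk)
        have e : (fun x y => U x y - φ (x, y) - (U x y - G k (x, y))) =
            fun x y => G k (x, y) - φ (x, y) := by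
          funext x y; ring
        rw [e] at this
        exact this
      have c3 : ∀ᶠ n in (hyperfilter ℕ : Filter ℕ), CutLe (volume : Measure I)
          (fun x y => (G k - φ) (Φ n x, Φ n y)) (ε + 2 / k + ε) :=
        hCUP Φ hΦ ν hν hw (G k - φ) (ε + 2 / k) (ε + 2 / k + ε) c2 (by linarith)
      have c4 : ∀ᶠ n in (hyperfilter ℕ : Filter ℕ),
          |sDens (volume : Measure I) E (fun x y => φ (Φ n x, Φ n y))
            (fun x y => hs (Φ n x) (Φ n y)) - sDens ν E (fun x y => φ (x, y)) hs| ≤ ε := by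
        have := hDLM V E Φ hΦ ν hν hw φ hs
        have h2 := this (Metric.closedBall_mem_nhds _ hε)
        filter_upwards [h2] with n hn
        have hn' := Metric.mem_closedBall.1 hn
        rw [Real.dist_eq] at hn'
        exact hn'
      have c5 : |sDens ν E U U.symm' - sDens ν E (fun x y => φ (x, y)) hs| ≤ E.card * ε :=
        hCNT V KK ν E hdiag U (ofC φ hφ1 hs) ε c1
      filter_upwards [c3, c4, hG k hk] with n h3 h4 h5
      have mP : Measurable (fun z : I × I => (Φ n z.1, Φ n z.2)) :=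
        ((hΦ n).comp measurable_fst).prodMk ((hΦ n).comp measurable_snd)
      have mW : Measurable (fun z : I × I => W n z.1 z.2) := (W n).measurable'
      have mG' : Measurable (fun z : I × I => G k (Φ n z.1, Φ n z.2)) :=
        (G k).continuous.measurable.comp mP
      have mφ' : Measurable (fun z : I × I => φ (Φ n z.1, Φ n z.2)) :=
        φ.continuous.measurable.comp mP
      have bW : ∀ x y, |W n x y| ≤ 1 := fun x y => by
        rw [abs_of_nonneg ((W n).nonneg' _ _)]; exact (W n).le_one' _ _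
      have h6 : CutLe (volume : Measure I) (fun x y => W n x y - φ (Φ n x, Φ n y))
          (2 / k + (ε + 2 / k + ε)) := by
        have := cutLe_add (volume : Measure I) (f := fun x y => W n x y - G k (Φ n x, Φ n y))
          (g := fun x y => (G k - φ) (Φ n x, Φ n y)) (mW.sub mG') (mG'.sub mφ')
          (C := 1 + CG) (C' := CG + 1)
          (fun x y => (abs_sub _ _).trans (add_le_add (bW _ _) (hCG _)))
          (fun x y => (abs_sub _ _).trans (add_le_add (hCG _) (bφ _))) h5 h3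
        have e : (fun x y => W n x y - G k (Φ n x, Φ n y) + (G k - φ) (Φ n x, Φ n y)) =
            fun x y => W n x y - φ (Φ n x, Φ n y) := by
          funext x y
          show W n x y - G k (Φ n x, Φ n y) + (G k (Φ n x, Φ n y) - φ (Φ n x, Φ n y)) = _
          ring
        rw [e] at this
        exact this
      have h7 : |sDens (volume : Measure I) E (W n) (W n).symm' -
          sDens (volume : Measure I) E (fun x y => φ (Φ n x, Φ n y))
            (fun x y => hs (Φ n x) (Φ n y))| ≤ E.card * (2 / k + (ε + 2 / k + ε)) :=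
        hCNT V I volume E hdiag (toGK (W n)) (pullC φ hφ1 hs (Φ n) (hΦ n)) _ h6
      have h8 : homDensity H (W n) = sDens (volume : Measure I) E (W n) (W n).symm' :=
        homDensity_eq H (W n)
      rw [h8]
      have e9 : sDens (volume : Measure I) E (W n) (W n).symm' - sDens ν E U U.symm' =
          (sDens (volume : Measure I) E (W n) (W n).symm' -
            sDens (volume : Measure I) E (fun x y => φ (Φ n x, Φ n y))
            (fun x y => hs (Φ n x) (Φ n y))) +
          (sDens (volume : Measure I) E (fun x y => φ (Φ n x, Φ n y))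
            (fun x y => hs (Φ n x) (Φ n y)) - sDens ν E (fun x y => φ (x, y)) hs) -
          (sDens ν E U U.symm' - sDens ν E (fun x y => φ (x, y)) hs) := by ring
      rw [e9]
      refine (abs_sub _ _).trans ((add_le_add ((abs_add_le _ _).trans (add_le_add h7 h4))
        c5).trans (le_of_eq ?_))
      ring
    rw [Metric.tendsto_nhds]
    intro η hη
    have hc : (0 : ℝ) ≤ (E.card : ℝ) := Nat.cast_nonneg _
    obtain ⟨k, hk⟩ := exists_nat_gt (16 * ((E.card : ℝ) + 1) / η)
    have hk0 : (0 : ℝ) < k := lt_of_le_of_lt (by positivity) hk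
    have hkN : 0 < k := by exact_mod_cast hk0
    have hε0 : 0 < η / (16 * ((E.card : ℝ) + 1)) := by positivity
    filter_upwards [key (η / (16 * ((E.card : ℝ) + 1))) hε0 k hkN] with n hn
    rw [Real.dist_eq]
    refine lt_of_le_of_lt hn ?_
    have h1 : (E.card : ℝ) * (4 / k) ≤ η / 4 := by
      have h2 : 16 * ((E.card : ℝ) + 1) < k * η := by
        rw [div_lt_iff₀ hη] at hk
        exact hk
      have h3 : (E.card : ℝ) * (4 / k) = (4 * (E.card : ℝ)) / k := by ring
      rw [h3, div_le_iff₀ hk0]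
      nlinarith
    have h4 : (E.card : ℝ) * (3 * (η / (16 * ((E.card : ℝ) + 1)))) ≤ 3 * η / 16 := by
      have h5 : (E.card : ℝ) * (3 * (η / (16 * ((E.card : ℝ) + 1)))) =
          (3 * η / 16) * ((E.card : ℝ) / ((E.card : ℝ) + 1)) := by
        field_simp
      rw [h5]
      refine mul_le_of_le_one_right (by positivity) ?_
      rw [div_le_one (by positivity)]
      linarith
    have h6 : η / (16 * ((E.card : ℝ) + 1)) ≤ η / 16 := by
      refine div_le_div_of_nonneg_left hη.le (by norm_num) ?_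
      linarith
    have h7 : (E.card : ℝ) * (4 / k + 3 * (η / (16 * ((E.card : ℝ) + 1)))) =
        (E.card : ℝ) * (4 / k) + (E.card : ℝ) * (3 * (η / (16 * ((E.card : ℝ) + 1)))) := by ring
    rw [h7]
    linarith
  · have h1 := hU (ContinuousMap.const _ 1)
    have h2 := hW0g id measurable_id
    simp only [ContinuousMap.const_apply, one_mul] at h1
    unfold mean
    simp only [id] at h2
    rw [h2]
    exact h1
  · intro c hc
    have h1 := hcost c hc
    have h2 := hW0g (relEnt p) (continuous_relEnt hp0 hp1).measurable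
    unfold cost
    rw [h2]
    exact h1

end Pool.FOT
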