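import Pool.Agent.H22.FOT.Defs

open MeasureTheory unitInterval Set Filter Topology

namespace Pool.FOT

open Pool.Agent.H99.LowerTail

namespace H40CUL

lemma bound_C (φ : C(KK × KK, ℝ)) : ∃ C : ℝ, 0 ≤ C ∧ ∀ z, |φ z| ≤ C := by
  obtain ⟨C, hC⟩ := isCompact_univ.exists_bound_of_continuousOn
    (φ.continuous.continuousOn (s := univ))
  exact ⟨C, (norm_nonneg _).trans (hC (fun _ => 0, fun _ => 0) (mem_univ _)),
    fun z => hC z (mem_univ _)⟩

/-- Change of variables. -/
lemma integral_enc (P : I → KK) (hP : Measurable P) (g : C(KK × KK, ℝ)) :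
    ∫ z, g z ∂(((volume : Measure I).map P).prod ((volume : Measure I).map P)) =
      ∫ z : I × I, g (P z.1, P z.2) := by
  rw [Measure.map_prod_map _ _ hP hP, integral_map (hP.prodMap hP).aemeasurable
    g.continuous.aestronglyMeasurable]
  rfl

/-- The difference of two products. -/
lemma abs_mul_sub_mul_le {a b a' b' : ℝ} (hb : b ∈ Icc (0 : ℝ) 1)
    (ha' : a' ∈ Icc (0 : ℝ) 1) : |a * b - a' * b'| ≤ |a - a'| + |b - b'| := by
  have e : a * b - a' * b' = (a - a') * b + a' * (b - b') := by ring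
  rw [e]
  refine (abs_add_le _ _).trans (add_le_add ?_ ?_)
  · rw [abs_mul, abs_of_nonneg hb.1]
    exact mul_le_of_le_one_right (abs_nonneg _) hb.2
  · rw [abs_mul, abs_of_nonneg ha'.1]
    exact mul_le_of_le_one_left (abs_nonneg _) ha'.2

end H40CUL

open H40CUL

theorem t_cul (hPRD : PRDStmt) (hDEN : DENStmt) : CULStmt := by
  intro W Φ hΦ ν U hν hw hU G δ hG
  have hνi : IsProbabilityMeasure ν := hν
  have hmn : ∀ n, IsProbabilityMeasure ((volume : Measure I).map (Φ n)) := fun n =>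
    Measure.isProbabilityMeasure_map (hΦ n).aemeasurable
  have hP := hPRD KK KK _ ν _ ν hmn hν hmn hν hw hw
  have mU : Measurable (fun z : KK × KK => U z.1 z.2) := U.measurable'
  have bU : ∀ x y, |U x y| ≤ 1 := fun x y => by
    rw [abs_of_nonneg (U.nonneg' _ _)]; exact U.le_one' _ _
  obtain ⟨CG, hCG0, hCG⟩ := bound_C G
  -- continuous test functions
  have key : ∀ a b : C(KK, ℝ), (∀ x, a x ∈ Icc (0 : ℝ) 1) → (∀ x, b x ∈ Icc (0 : ℝ) 1) →
      |∫ z : KK × KK, (U z.1 z.2 - G (z.1, z.2)) * a z.1 * b z.2 ∂(ν.prod ν)| ≤ δ := by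
    intro a b ha hb
    set h : C(KK × KK, ℝ) := ⟨fun z => a z.1 * b z.2, by fun_prop⟩ with hh
    have hhv : ∀ z : KK × KK, h z = a z.1 * b z.2 := fun z => rfl
    have t1 := hU h
    have t2 := hP (G * h)
    have bh : ∀ z, |h z| ≤ 1 := fun z => by
      rw [hhv, abs_of_nonneg (mul_nonneg (ha _).1 (hb _).1)]
      exact mul_le_one₀ (ha _).2 (hb _).1 (hb _).2
    have iU : Integrable (fun z : KK × KK => h z * U z.1 z.2) (ν.prod ν) := by
      refine Integrable.of_bound (h.continuous.measurable.mul mU).aestronglyMeasurable 1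
        (Eventually.of_forall fun z => ?_)
      rw [Real.norm_eq_abs, abs_mul]
      exact mul_le_one₀ (bh _) (abs_nonneg _) (bU _ _)
    have iG : Integrable (fun z : KK × KK => (G * h) z) (ν.prod ν) := by
      refine Integrable.of_bound (G * h).continuous.measurable.aestronglyMeasurable (CG * 1)
        (Eventually.of_forall fun z => ?_)
      rw [Real.norm_eq_abs, ContinuousMap.mul_apply, abs_mul]
      exact mul_le_mul (hCG _) (bh _) (abs_nonneg _) hCG0
    have e1 : ∫ z : KK × KK, (U z.1 z.2 - G (z.1, z.2)) * a z.1 * b z.2 ∂(ν.prod ν) =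
        (∫ z : KK × KK, h z * U z.1 z.2 ∂(ν.prod ν)) - ∫ z, (G * h) z ∂(ν.prod ν) := by
      rw [← integral_sub iU iG]
      refine integral_congr_ae (Eventually.of_forall fun z => ?_)
      show (U z.1 z.2 - G (z.1, z.2)) * a z.1 * b z.2 =
        a z.1 * b z.2 * U z.1 z.2 - G z * (a z.1 * b z.2)
      have : G (z.1, z.2) = G z := rfl
      rw [this]
      ring
    rw [e1]
    have t3 : Tendsto (fun n => (∫ z : I × I, h (Φ n z.1, Φ n z.2) * W n z.1 z.2) -
        ∫ z, (G * h) z ∂(((volume : Measure I).map (Φ n)).prod ((volume : Measure I).map (Φ n))))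
        (hyperfilter ℕ : Filter ℕ) (𝓝 ((∫ z : KK × KK, h z * U z.1 z.2 ∂(ν.prod ν)) -
          ∫ z, (G * h) z ∂(ν.prod ν))) := t1.sub t2
    refine le_of_tendsto t3.abs ?_
    filter_upwards [hG] with n hn
    have mP : Measurable (fun z : I × I => (Φ n z.1, Φ n z.2)) :=
      ((hΦ n).comp measurable_fst).prodMk ((hΦ n).comp measurable_snd)
    have mW : Measurable (fun z : I × I => W n z.1 z.2) := (W n).measurable'
    rw [integral_enc (Φ n) (hΦ n) (G * h)]
    have bW : ∀ x y, |W n x y| ≤ 1 := fun x y => by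
      rw [abs_of_nonneg ((W n).nonneg' _ _)]; exact (W n).le_one' _ _
    have jU : Integrable (fun z : I × I => h (Φ n z.1, Φ n z.2) * W n z.1 z.2) := by
      refine Integrable.of_bound ((h.continuous.measurable.comp mP).mul mW).aestronglyMeasurable 1
        (Eventually.of_forall fun z => ?_)
      rw [Real.norm_eq_abs]
      show |h (Φ n z.1, Φ n z.2) * W n z.1 z.2| ≤ 1
      rw [abs_mul]
      exact mul_le_one₀ (bh _) (abs_nonneg _) (bW _ _)
    have jG : Integrable (fun z : I × I => (G * h) (Φ n z.1, Φ n z.2)) := by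
      refine Integrable.of_bound
        ((G * h).continuous.measurable.comp mP).aestronglyMeasurable (CG * 1)
        (Eventually.of_forall fun z => ?_)
      rw [Real.norm_eq_abs]
      show |(G * h) (Φ n z.1, Φ n z.2)| ≤ CG * 1
      rw [ContinuousMap.mul_apply, abs_mul]
      exact mul_le_mul (hCG _) (bh _) (abs_nonneg _) hCG0
    rw [← integral_sub jU jG]
    have h4 := hn (fun x => a (Φ n x)) (fun x => b (Φ n x))
      (a.continuous.measurable.comp (hΦ n)) (b.continuous.measurable.comp (hΦ n))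
      (fun x => ha _) (fun x => hb _)
    refine le_of_eq_of_le ?_ h4
    congr 1
    refine integral_congr_ae (Eventually.of_forall fun z => ?_)
    show a (Φ n z.1) * b (Φ n z.2) * W n z.1 z.2 -
      G (Φ n z.1, Φ n z.2) * (a (Φ n z.1) * b (Φ n z.2)) =
      (W n z.1 z.2 - G (Φ n z.1, Φ n z.2)) * a (Φ n z.1) * b (Φ n z.2)
    ring
  -- measurable test functions
  intro a b ha hb ha1 hb1
  have mG : Measurable (fun z : KK × KK => G (z.1, z.2)) := G.continuous.measurable
  have bD : ∀ x y, |U x y - G (x, y)| ≤ 1 + CG := fun x y =>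
    (abs_sub _ _).trans (add_le_add (bU _ _) (hCG _))
  have iD : ∀ a b : KK → ℝ, Measurable a → Measurable b → (∀ x, a x ∈ Icc (0 : ℝ) 1) →
      (∀ x, b x ∈ Icc (0 : ℝ) 1) →
      Integrable (fun z : KK × KK => (U z.1 z.2 - G (z.1, z.2)) * a z.1 * b z.2)
        (ν.prod ν) := by
    intro a b ha hb ha1 hb1
    refine Integrable.of_bound (((mU.sub mG).mul (ha.comp measurable_fst)).mul
      (hb.comp measurable_snd)).aestronglyMeasurable (1 + CG) (Eventually.of_forall fun z => ?_)
    rw [Real.norm_eq_abs, abs_mul, abs_mul, abs_of_nonneg (ha1 z.1).1,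
      abs_of_nonneg (hb1 z.2).1]
    have h0 : 0 ≤ |U z.1 z.2 - G (z.1, z.2)| := abs_nonneg _
    exact (mul_le_of_le_one_right (mul_nonneg h0 (ha1 z.1).1) (hb1 z.2).2).trans
      ((mul_le_of_le_one_right h0 (ha1 z.1).2).trans (bD _ _))
  refine le_of_forall_pos_le_add fun ε hε => ?_
  have hε' : 0 < ε / (2 * (1 + CG)) := by positivity
  obtain ⟨a', ha', hda⟩ := hDEN KK ν a ha ha1 _ hε'
  obtain ⟨b', hb', hdb⟩ := hDEN KK ν b hb hb1 _ hε'
  have h5 := key a' b' ha' hb'
  have i1 := iD a b ha hb ha1 hb1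
  have i2 := iD a' b' a'.continuous.measurable b'.continuous.measurable ha' hb'
  have ia : Integrable (fun x => |a x - a' x|) ν := by
    refine Integrable.of_bound (ha.sub a'.continuous.measurable).abs.aestronglyMeasurable 1
      (Eventually.of_forall fun x => ?_)
    rw [Real.norm_eq_abs, abs_abs, abs_le]
    constructor <;> linarith [(ha1 x).1, (ha1 x).2, (ha' x).1, (ha' x).2]
  have ib : Integrable (fun x => |b x - b' x|) ν := by
    refine Integrable.of_bound (hb.sub b'.continuous.measurable).abs.aestronglyMeasurable 1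
      (Eventually.of_forall fun x => ?_)
    rw [Real.norm_eq_abs, abs_abs, abs_le]
    constructor <;> linarith [(hb1 x).1, (hb1 x).2, (hb' x).1, (hb' x).2]
  have ja : Integrable (fun z : KK × KK => |a z.1 - a' z.1|) (ν.prod ν) := ia.comp_fst ν
  have jb : Integrable (fun z : KK × KK => |b z.2 - b' z.2|) (ν.prod ν) := ib.comp_snd ν
  have h6 : |∫ z : KK × KK, (U z.1 z.2 - G (z.1, z.2)) * a z.1 * b z.2 ∂(ν.prod ν) -
      ∫ z : KK × KK, (U z.1 z.2 - G (z.1, z.2)) * a' z.1 * b' z.2 ∂(ν.prod ν)| ≤ ε := by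
    rw [← integral_sub i1 i2]
    have h7 : ∫ z : KK × KK, (1 + CG) * (|a z.1 - a' z.1| + |b z.2 - b' z.2|) ∂(ν.prod ν) ≤ ε := by
      rw [integral_const_mul, integral_add ja jb]
      have e1 : ∫ z : KK × KK, |a z.1 - a' z.1| ∂(ν.prod ν) = ∫ x, |a x - a' x| ∂ν := by
        have := integral_fun_fst (μ := ν) (ν := ν) (fun x => |a x - a' x|)
        simpa using this
      have e2 : ∫ z : KK × KK, |b z.2 - b' z.2| ∂(ν.prod ν) = ∫ x, |b x - b' x| ∂ν := by
        have := integral_fun_snd (μ := ν) (ν := ν) (fun x => |b x - b' x|)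
        simpa using this
      rw [e1, e2]
      calc (1 + CG) * (∫ x, |a x - a' x| ∂ν + ∫ x, |b x - b' x| ∂ν)
          ≤ (1 + CG) * (ε / (2 * (1 + CG)) + ε / (2 * (1 + CG))) := by gcongr
        _ = ε := by field_simp; ring
    refine abs_integral_le_integral_abs.trans (le_trans (integral_mono (i1.sub i2).abs
      ((ja.add jb).const_mul _) fun z => ?_) h7)
    show |(U z.1 z.2 - G (z.1, z.2)) * a z.1 * b z.2 -
      (U z.1 z.2 - G (z.1, z.2)) * a' z.1 * b' z.2| ≤
      (1 + CG) * (|a z.1 - a' z.1| + |b z.2 - b' z.2|)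
    have e : (U z.1 z.2 - G (z.1, z.2)) * a z.1 * b z.2 -
        (U z.1 z.2 - G (z.1, z.2)) * a' z.1 * b' z.2 =
        (U z.1 z.2 - G (z.1, z.2)) * (a z.1 * b z.2 - a' z.1 * b' z.2) := by ring
    rw [e, abs_mul]
    exact mul_le_mul (bD _ _) (abs_mul_sub_mul_le (hb1 _) (ha' _)) (abs_nonneg _)
      (by positivity)
  have h8 := abs_sub_abs_le_abs_sub
    (∫ z : KK × KK, (U z.1 z.2 - G (z.1, z.2)) * a z.1 * b z.2 ∂(ν.prod ν))
    (∫ z : KK × KK, (U z.1 z.2 - G (z.1, z.2)) * a' z.1 * b' z.2 ∂(ν.prod ν))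
  linarith

end Pool.FOT
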