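import Pool.Agent.H22.FOT.Defs

open MeasureTheory unitInterval Set Filter Topology

namespace Pool.FOT

open Pool.Agent.H99.LowerTail

theorem t_cup (hLM1 : LM1Stmt) (hSTW : STWStmt) : CUPStmt := by
  intro Φ hΦ ν hν hw F δ δ' hF hδ
  by_contra hcon
  have hcon' : ∀ᶠ n in (hyperfilter ℕ : Filter ℕ), ¬ CutLe (volume : Measure I)
      (fun x y => F (Φ n x, Φ n y)) δ' := Ultrafilter.eventually_not.2 hcon
  have hch : ∀ n : ℕ, ∃ a b : I → ℝ, Measurable a ∧ Measurable b ∧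
      (∀ x, a x ∈ Icc (0 : ℝ) 1) ∧ (∀ x, b x ∈ Icc (0 : ℝ) 1) ∧
      (¬ CutLe (volume : Measure I) (fun x y => F (Φ n x, Φ n y)) δ' →
        δ' < |∫ z : I × I, F (Φ n z.1, Φ n z.2) * a z.1 * b z.2|) := by
    intro n
    by_cases h : CutLe (volume : Measure I) (fun x y => F (Φ n x, Φ n y)) δ'
    · refine ⟨fun _ => 0, fun _ => 0, measurable_const, measurable_const,
        fun x => ⟨le_rfl, zero_le_one⟩, fun x => ⟨le_rfl, zero_le_one⟩, fun h' => absurd h h'⟩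
    · have h' := h
      unfold CutLe at h'
      push Not at h'
      obtain ⟨a, b, ha, hb, ha1, hb1, hab⟩ := h'
      exact ⟨a, b, ha, hb, ha1, hb1, fun _ => hab⟩
  choose a b ha hb ha1 hb1 hab using hch
  obtain ⟨α, hα, hα1, hαt⟩ := hLM1 Φ hΦ ν hν hw a ha ha1
  obtain ⟨β, hβ, hβ1, hβt⟩ := hLM1 Φ hΦ ν hν hw b hb hb1
  have t := hSTW Φ hΦ ν hν a b α β ha hb hα hβ ha1 hb1 hα1 hβ1 hαt hβt F
  have h1 : δ' ≤ |∫ z : KK × KK, F z * α z.1 * β z.2 ∂(ν.prod ν)| := by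
    refine ge_of_tendsto t.abs ?_
    filter_upwards [hcon'] with n hn
    exact (hab n hn).le
  have h2 : |∫ z : KK × KK, F (z.1, z.2) * α z.1 * β z.2 ∂(ν.prod ν)| ≤ δ :=
    hF α β hα hβ hα1 hβ1
  have h3 : |∫ z : KK × KK, F z * α z.1 * β z.2 ∂(ν.prod ν)| ≤ δ := h2
  linarith

end Pool.FOT
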